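import Mathlib

/-!
Statements: matroid union for submodular functions, relations between rank one tensors, blocks.
-/

set_option autoImplicit false

namespace Pool.Agent.Helper11K9.KM

/-- Matroid union (Rado, Edmonds): monotone submodular functions with `|B| ≤ ∑ ρ i B`. -/
def S_RADO : Prop :=
  ∀ (σ : Type) [Fintype σ] [DecidableEq σ] (k : ℕ) (ρ : Fin k → Finset σ → ℕ),
    (∀ i A B, A ⊆ B → ρ i A ≤ ρ i B) →
    (∀ i A B, ρ i (A ∪ B) + ρ i (A ∩ B) ≤ ρ i A + ρ i B) →
    (∀ B : Finset σ, B.card ≤ ∑ i, ρ i B) →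
    ∃ c : σ → Fin k, ∀ i, (Finset.univ.filter fun s => c s = i).card ≤
      ρ i (Finset.univ.filter fun s => c s = i)

/-- A linear relation between rank one tensors with nonzero coefficients. -/
def S_Q : Prop :=
  ∀ (Ω ι : Type) [Field Ω] [Fintype ι] [Nonempty ι] (k : ℕ) (a : Fin k → ℕ)
    (x : ∀ i : Fin k, ι → Fin (a i) → Ω) (_ : ∀ i s, x i s ≠ 0) (c : ι → Ω) (_ : ∀ s, c s ≠ 0)
    (_ : ∀ e : ∀ i : Fin k, Fin (a i), ∑ s, c s * ∏ i, x i s (e i) = 0),
    ∃ B : Finset ι, B.Nonempty ∧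
      2 + ∑ i, Module.finrank Ω (Submodule.span Ω (x i '' (B : Set ι))) ≤ B.card + k

/-- Blocks: ranks of sets of conjugates. -/
def S_BLK : Prop :=
  ∀ (L E : Type) [Field L] [Field E] [Algebra L E] [FiniteDimensional L E] [IsGalois L E]
    (K : IntermediateField L E) (k : ℕ) (a : Fin k → ℕ) (t : ∀ i : Fin k, Fin (a i) → K)
    (_ : ∀ i, ∃ j, t i j ≠ 0)
    (_ : ∀ M : IntermediateField L E, M ≤ K → M ≠ K →
      2 * Module.finrank L K + k * Module.finrank L M ≤
        (1 + ∑ i, Module.finrank M (Submodule.span M (Set.range fun j => (t i j : E)))) *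
          Module.finrank L M)
    (B : Finset (K →ₐ[L] E)) (_ : 2 ≤ B.card),
    2 * B.card + k ≤ 1 + ∑ i, Module.finrank E
      (Submodule.span E ((fun (τ : K →ₐ[L] E) (j : Fin (a i)) => τ (t i j)) '' (B : Set (K →ₐ[L] E))))

end Pool.Agent.Helper11K9.KM
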