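import Mathlib
import Pool.Agent.Helper11K9.KM.St

/-!
Blocks: the ranks of sets of conjugates.
-/

set_option autoImplicit false
set_option linter.unusedSectionVars false

namespace Pool.Agent.Helper11K9.KM

section rank

variable {E V ι : Type} [Field E] [AddCommGroup V] [Module E V] [FiniteDimensional E V]

/-- the rank of a set of vectors -/
noncomputable def rk (E : Type) {V ι : Type} [Field E] [AddCommGroup V] [Module E V] (x : ι → V)
    (B : Set ι) : ℕ := Module.finrank E (Submodule.span E (x '' B))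

theorem rk_mono (x : ι → V) {A B : Set ι} (h : A ⊆ B) : rk E x A ≤ rk E x B :=
  Submodule.finrank_mono (Submodule.span_mono (Set.image_mono h))

theorem rk_submod (x : ι → V) (A B : Set ι) :
    rk E x (A ∪ B) + rk E x (A ∩ B) ≤ rk E x A + rk E x B := by
  have h1 := Submodule.finrank_sup_add_finrank_inf_eq (Submodule.span E (x '' A))
    (Submodule.span E (x '' B))
  rw [← Submodule.span_union, ← Set.image_union] at h1
  have h2 : Submodule.span E (x '' (A ∩ B)) ≤
      Submodule.span E (x '' A) ⊓ Submodule.span E (x '' B) :=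
    le_inf (Submodule.span_mono (Set.image_mono Set.inter_subset_left))
      (Submodule.span_mono (Set.image_mono Set.inter_subset_right))
  have h3 := Submodule.finrank_mono h2
  unfold rk
  omega

theorem rk_pos {x : ι → V} {B : Set ι} {s : ι} (hs : s ∈ B) (hx : x s ≠ 0) : 1 ≤ rk E x B := by
  have h1 : (⟨x s, Submodule.subset_span ⟨s, hs, rfl⟩⟩ : Submodule.span E (x '' B)) ≠ 0 := by
    intro h
    exact hx (congrArg Subtype.val h)
  exact Module.finrank_pos_iff_exists_ne_zero.2 ⟨_, h1⟩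

end rank

section artin

variable {L E : Type} [Field L] [Field E] [Algebra L E] [FiniteDimensional L E]

open IntermediateField

/-- vectors independent over the fixed field have independent vectors of conjugates -/
theorem artin (S : Subgroup (E ≃ₐ[L] E)) {κ : Type} [Fintype κ] {u : κ → E}
    (hu : LinearIndependent (fixedField S) u) {lam : κ → E}
    (h : ∀ g ∈ S, ∑ j, lam j * g (u j) = 0) : lam = 0 := by
  classical
  by_contra hcon
  obtain ⟨j0, hj0⟩ : ∃ j0, lam j0 ≠ 0 := by
    by_contra h'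
    push Not at h'
    exact hcon (funext h')
  have hfin : Fintype S := Fintype.ofFinite S
  -- a nonzero trace
  obtain ⟨c, hc⟩ : ∃ c : E, ∑ g : S, (g : E ≃ₐ[L] E) (c * lam j0) ≠ 0 := by
    by_contra h'
    push Not at h'
    have hinj : Function.Injective (fun g : S => ((g : E ≃ₐ[L] E) : E →* E)) := by
      intro g g' hgg
      apply Subtype.ext
      ext z
      exact DFunLike.congr_fun hgg z
    have h1 := (linearIndependent_monoidHom E E).comp _ hinj
    rw [Fintype.linearIndependent_iff] at h1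
    have h2 := h1 (fun g => (g : E ≃ₐ[L] E) (lam j0)) (by
      funext z
      have h3 := h' z
      rw [Finset.sum_apply]
      change ∑ g : S, (g : E ≃ₐ[L] E) (lam j0) * (g : E ≃ₐ[L] E) z = 0
      rw [← h3]
      refine Finset.sum_congr rfl fun g _ => ?_
      rw [map_mul, mul_comm]) 1
    rw [Subgroup.coe_one, AlgEquiv.one_apply] at h2
    exact hj0 h2
  obtain ⟨T, hT⟩ : ∃ T : E → E, T = fun z => ∑ g : S, (g : E ≃ₐ[L] E) z := ⟨_, rfl⟩
  have hTm : ∀ z, T z ∈ fixedField S := by
    intro z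
    rw [mem_fixedField_iff]
    intro g hg
    rw [hT]
    change g (∑ g' : S, (g' : E ≃ₐ[L] E) z) = ∑ g' : S, (g' : E ≃ₐ[L] E) z
    rw [map_sum]
    exact Fintype.sum_equiv (Equiv.mulLeft (⟨g, hg⟩ : S)) _ _ fun g' => rfl
  have hsum : ∑ j, T (c * lam j) * u j = 0 := by
    have h1 : ∀ g : S, ∑ j, (g : E ≃ₐ[L] E) (c * lam j) * u j = 0 := by
      intro g
      have h2 := h (g : E ≃ₐ[L] E)⁻¹ (S.inv_mem g.2)
      have h3 := congrArg (fun z => (g : E ≃ₐ[L] E) (c * z)) h2
      simp only [mul_zero, map_zero] at h3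
      rw [Finset.mul_sum, map_sum] at h3
      rw [← h3]
      refine Finset.sum_congr rfl fun j _ => ?_
      have h4 : (g : E ≃ₐ[L] E) ((g : E ≃ₐ[L] E)⁻¹ (u j)) = u j := by
        rw [← AlgEquiv.mul_apply, mul_inv_cancel, AlgEquiv.one_apply]
      rw [← mul_assoc, map_mul (g : E ≃ₐ[L] E) (c * lam j), h4]
    rw [hT]
    simp only [Finset.sum_mul]
    rw [Finset.sum_comm]
    exact Finset.sum_eq_zero fun g _ => h1 g
  rw [Fintype.linearIndependent_iff] at hu
  have h5 := hu (fun j => ⟨T (c * lam j), hTm _⟩) (by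
    rw [← hsum]
    exact Finset.sum_congr rfl fun j _ => rfl) j0
  apply hc
  have h6 : T (c * lam j0) = 0 := congrArg Subtype.val h5
  rw [hT] at h6
  exact h6

/-- the rank over the fixed field -/
theorem rank_le (S : Subgroup (E ≃ₐ[L] E)) {a : ℕ} (t : Fin a → E) :
    Module.finrank (fixedField S) (Submodule.span (fixedField S) (Set.range t)) ≤
      rk E (fun (g : E ≃ₐ[L] E) (j : Fin a) => g (t j)) (S : Set (E ≃ₐ[L] E)) := by
  classical
  obtain ⟨κ, f, hf, hspan, hli⟩ := exists_linearIndependent' (fixedField S) t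
  have hκ : Finite κ := Finite.of_injective f hf
  have hκ' : Fintype κ := Fintype.ofFinite κ
  have h1 : Module.finrank (fixedField S) (Submodule.span (fixedField S) (Set.range t)) =
      Fintype.card κ := by
    rw [← hspan]
    exact finrank_span_eq_card hli
  rw [h1]
  obtain ⟨W, hW⟩ : ∃ W, W = Submodule.span E
    ((fun (g : E ≃ₐ[L] E) (j : Fin a) => g (t j)) '' (S : Set (E ≃ₐ[L] E))) := ⟨_, rfl⟩
  have h2 : W.map (LinearMap.funLeft E E f) = ⊤ := by
    by_contra hcon
    obtain ⟨φ, hφ0, hφ⟩ := Submodule.exists_le_ker_of_lt_top _ (lt_top_iff_ne_top.2 hcon)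
    apply hφ0
    have h3 := artin S hli (lam := fun j => φ (Pi.single j 1)) (fun g hg => by
      have h4 : (fun j => g (t (f j))) ∈ W.map (LinearMap.funLeft E E f) := by
        refine ⟨fun j => g (t j), ?_, rfl⟩
        rw [hW]
        exact Submodule.subset_span ⟨g, hg, rfl⟩
      have h5 := LinearMap.mem_ker.1 (hφ h4)
      rw [LinearMap.pi_apply_eq_sum_univ φ] at h5
      rw [← h5]
      refine Finset.sum_congr rfl fun j _ => ?_
      rw [smul_eq_mul, mul_comm]
      congr 2
      funext j'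
      rw [Pi.single_apply]
      exact if_congr eq_comm rfl rfl)
    refine LinearMap.pi_ext' fun j => ?_
    ext
    exact congrFun h3 j
  have h3 := Submodule.finrank_map_le (LinearMap.funLeft E E f) W
  rw [h2, finrank_top, Module.finrank_fintype_fun_eq_card] at h3
  rw [rk, ← hW]
  exact h3

/-- translation does not increase the rank -/
theorem rk_left {a : ℕ} (t : Fin a → E) (g : E ≃ₐ[L] E) (B : Set (E ≃ₐ[L] E)) :
    rk E (fun (h : E ≃ₐ[L] E) (j : Fin a) => h (t j)) ((fun h => g * h) '' B) ≤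
      rk E (fun (h : E ≃ₐ[L] E) (j : Fin a) => h (t j)) B := by
  classical
  obtain ⟨W, hW⟩ : ∃ W, W = Submodule.span E
    ((fun (h : E ≃ₐ[L] E) (j : Fin a) => h (t j)) '' B) := ⟨_, rfl⟩
  let b := Module.finBasis E W
  have h1 : Submodule.span E ((fun (h : E ≃ₐ[L] E) (j : Fin a) => h (t j)) ''
      ((fun h => g * h) '' B)) ≤ Submodule.span E (Set.range fun l => fun j => g ((b l : Fin a → E) j)) := by
    rw [Submodule.span_le]
    rintro _ ⟨_, ⟨h, hh, rfl⟩, rfl⟩
    have h2 : (fun j => h (t j)) ∈ W := by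
      rw [hW]
      exact Submodule.subset_span ⟨h, hh, rfl⟩
    have h3 := b.sum_repr ⟨_, h2⟩
    have h4 : (fun j => (g * h) (t j)) =
        ∑ l, g (b.repr ⟨_, h2⟩ l) • (fun j => g ((b l : Fin a → E) j)) := by
      funext j
      have h5 := congrArg (fun w : W => g ((w : Fin a → E) j)) h3
      simp only [Submodule.coe_sum, Submodule.coe_smul, Finset.sum_apply, Pi.smul_apply,
        smul_eq_mul, map_sum, map_mul] at h5
      rw [AlgEquiv.mul_apply, ← h5]
      rw [Finset.sum_apply]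
      rfl
    change (fun j => (g * h) (t j)) ∈ _
    rw [h4]
    exact Submodule.sum_mem _ fun l _ => Submodule.smul_mem _ _ (Submodule.subset_span ⟨l, rfl⟩)
  have h2 := Submodule.finrank_mono h1
  have h3 := finrank_range_le_card (R := E) (fun l => fun j => g ((b l : Fin a → E) j))
  rw [Fintype.card_fin] at h3
  rw [rk, rk, ← hW]
  exact h2.trans h3

end artin


section blocks

variable {L E : Type} [Field L] [Field E] [Algebra L E] [FiniteDimensional L E] [IsGalois L E]

open IntermediateField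

/-- **Blocks.** -/
theorem blk_aux (K : IntermediateField L E) {k : ℕ} {a : Fin k → ℕ} (t : ∀ i, Fin (a i) → E)
    (htK : ∀ i j, t i j ∈ K) (ht : ∀ i, ∃ j, t i j ≠ 0)
    (hM : ∀ M : IntermediateField L E, M ≤ K → M ≠ K →
      2 * Module.finrank L K + k * Module.finrank L M ≤
        (1 + ∑ i, Module.finrank M (Submodule.span M (Set.range (t i)))) * Module.finrank L M)
    (B : Finset (E ≃ₐ[L] E)) (hB : 2 * Nat.card K.fixingSubgroup ≤ B.card)
    (hB' : (Nat.card K.fixingSubgroup : ℤ) * ∑ i, ((rk E (fun (g : E ≃ₐ[L] E) (j : Fin (a i)) =>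
      g (t i j)) (B : Set (E ≃ₐ[L] E)) : ℤ) - 1) ≤ 2 * (B.card - Nat.card K.fixingSubgroup)) :
    False := by
  classical
  obtain ⟨c, hc⟩ : ∃ c : ℕ, c = Nat.card K.fixingSubgroup := ⟨_, rfl⟩
  have hc0 : 0 < c := by
    rw [hc]
    exact Nat.card_pos
  rw [← hc] at hB hB'
  obtain ⟨R, hR⟩ : ∃ R : Finset (E ≃ₐ[L] E) → ℤ, R = fun (S : Finset (E ≃ₐ[L] E)) => ∑ i,
    ((rk E (fun (g : E ≃ₐ[L] E) (j : Fin (a i)) => g (t i j)) (S : Set (E ≃ₐ[L] E)) : ℤ) - 1) :=
    ⟨_, rfl⟩
  have hR' : ∀ S, R S = ∑ i, ((rk E (fun (g : E ≃ₐ[L] E) (j : Fin (a i)) => g (t i j))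
    (S : Set (E ≃ₐ[L] E)) : ℤ) - 1) := fun S => by rw [hR]
  rw [← hR'] at hB'
  obtain ⟨h, hh⟩ : ∃ h : Finset (E ≃ₐ[L] E) → ℤ, h = fun S => c * R S - 2 * (S.card - c) :=
    ⟨_, rfl⟩
  have hh' : ∀ S, h S = c * R S - 2 * (S.card - c) := fun S => by rw [hh]
  have hRpos : ∀ S : Finset (E ≃ₐ[L] E), S.Nonempty → 0 ≤ R S := by
    rintro S ⟨g, hg⟩
    rw [hR']
    refine Finset.sum_nonneg fun i _ => ?_
    obtain ⟨j, hj⟩ := ht i
    have h1 : 1 ≤ rk E (fun (g : E ≃ₐ[L] E) (j : Fin (a i)) => g (t i j))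
        (S : Set (E ≃ₐ[L] E)) := by
      refine rk_pos (s := g) (by exact_mod_cast hg) fun h0 => ?_
      have h2 := congrFun h0 j
      change g (t i j) = 0 at h2
      rw [map_eq_zero] at h2
      exact hj h2
    omega
  have hRmono : ∀ S S' : Finset (E ≃ₐ[L] E), S ⊆ S' → R S ≤ R S' := by
    intro S S' hS
    rw [hR', hR']
    refine Finset.sum_le_sum fun i _ => ?_
    have h1 := rk_mono (E := E) (fun (g : E ≃ₐ[L] E) (j : Fin (a i)) => g (t i j))
      (Finset.coe_subset.2 hS)
    omega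
  have hRsub : ∀ S S' : Finset (E ≃ₐ[L] E), R (S ∪ S') + R (S ∩ S') ≤ R S + R S' := by
    intro S S'
    rw [hR', hR', hR', hR', ← Finset.sum_add_distrib, ← Finset.sum_add_distrib]
    refine Finset.sum_le_sum fun i _ => ?_
    have h1 := rk_submod (E := E) (fun (g : E ≃ₐ[L] E) (j : Fin (a i)) => g (t i j))
      (S : Set (E ≃ₐ[L] E)) (S' : Set (E ≃ₐ[L] E))
    rw [Finset.coe_union, Finset.coe_inter]
    omega
  have hRleft : ∀ (g : E ≃ₐ[L] E) (S : Finset (E ≃ₐ[L] E)), R (S.image fun x => g * x) ≤ R S := by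
    intro g S
    rw [hR', hR']
    refine Finset.sum_le_sum fun i _ => ?_
    have h1 := rk_left (t i) g (S : Set (E ≃ₐ[L] E))
    rw [Finset.coe_image]
    omega
  have hcard : ∀ (g : E ≃ₐ[L] E) (S : Finset (E ≃ₐ[L] E)), (S.image fun x => g * x).card = S.card :=
    fun g S => Finset.card_image_of_injective _ (mul_right_injective g)
  -- a minimiser of maximal size
  obtain ⟨F, hF⟩ : ∃ F : Finset (Finset (E ≃ₐ[L] E)), F = Finset.univ.filter (·.Nonempty) :=
    ⟨_, rfl⟩
  have hmemF : ∀ S, S ∈ F ↔ S.Nonempty := fun S => by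
    rw [hF]
    simp
  have hBne : B.Nonempty := Finset.card_pos.1 (by omega)
  obtain ⟨S0, hS0, hmin⟩ := Finset.exists_min_image F h ⟨B, (hmemF B).2 hBne⟩
  obtain ⟨m, hm⟩ : ∃ m, m = h S0 := ⟨_, rfl⟩
  rw [← hm] at hmin
  have hmB : m ≤ 0 := (hmin B ((hmemF B).2 hBne)).trans (by
    rw [hh']
    omega)
  obtain ⟨S1, hS1, hmax⟩ := Finset.exists_max_image (F.filter fun S => h S = m) Finset.card
    ⟨S0, Finset.mem_filter.2 ⟨hS0, hm.symm⟩⟩
  obtain ⟨hS1F, hS1m⟩ := Finset.mem_filter.1 hS1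
  have hmax' : ∀ S : Finset (E ≃ₐ[L] E), S.Nonempty → h S ≤ m → S.card ≤ S1.card := by
    intro S hS hSm
    exact hmax S (Finset.mem_filter.2 ⟨(hmemF S).2 hS, le_antisymm hSm (hmin S ((hmemF S).2 hS))⟩)
  have hS1c : c < S1.card := by
    rcases lt_or_eq_of_le hmB with h1 | h1
    · have h2 := hRpos S1 ((hmemF S1).1 hS1F)
      rw [hh'] at hS1m
      have h3 : (0 : ℤ) ≤ c * R S1 := mul_nonneg (by omega) h2
      omega
    · have h2 := hmax' B hBne (by
        rw [hh', h1]
        omega)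
      omega
  obtain ⟨s, hs⟩ := (hmemF S1).1 hS1F
  -- translate it
  obtain ⟨S, hS⟩ : ∃ S : Finset (E ≃ₐ[L] E), S = S1.image fun x => s⁻¹ * x := ⟨_, rfl⟩
  have hScard : S.card = S1.card := by rw [hS, hcard]
  have h1S : (1 : E ≃ₐ[L] E) ∈ S := by
    rw [hS]
    exact Finset.mem_image.2 ⟨s, hs, inv_mul_cancel s⟩
  have hSm : h S ≤ m := by
    rw [← hS1m, hh', hh', hScard]
    have h1 := hRleft s⁻¹ S1
    rw [← hS] at h1
    have h2 : (c : ℤ) * R S ≤ c * R S1 := mul_le_mul_of_nonneg_left h1 (by omega)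
    omega
  have hdiv : ∀ x ∈ S, ∀ y ∈ S, x⁻¹ * y ∈ S := by
    intro x hx y hy
    obtain ⟨S', hS'⟩ : ∃ S' : Finset (E ≃ₐ[L] E), S' = S.image fun z => x⁻¹ * z := ⟨_, rfl⟩
    have h1S' : (1 : E ≃ₐ[L] E) ∈ S' := by
      rw [hS']
      exact Finset.mem_image.2 ⟨x, hx, inv_mul_cancel x⟩
    have hS'card : S'.card = S.card := by rw [hS', hcard]
    have hS'm : h S' ≤ m := by
      refine le_trans ?_ hSm
      rw [hh', hh', hS'card]
      have h1 := hRleft x⁻¹ S
      rw [← hS'] at h1
      have h2 : (c : ℤ) * R S' ≤ c * R S := mul_le_mul_of_nonneg_left h1 (by omega)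
      omega
    have hI : m ≤ h (S ∩ S') := hmin _ ((hmemF _).2 ⟨1, Finset.mem_inter.2 ⟨h1S, h1S'⟩⟩)
    have hU : h (S ∪ S') ≤ m := by
      have h1 := hRsub S S'
      have h2 : (c : ℤ) * (R (S ∪ S') + R (S ∩ S')) ≤ c * (R S + R S') :=
        mul_le_mul_of_nonneg_left h1 (by omega)
      have h3 := Finset.card_union_add_card_inter S S'
      have h3' : ((S ∪ S').card : ℤ) + (S ∩ S').card = S.card + S'.card := by exact_mod_cast h3
      rw [hh'] at hI hSm hS'm ⊢
      rw [mul_add, mul_add] at h2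
      linarith
    have h4 := hmax' _ ⟨1, Finset.mem_union_left _ h1S⟩ hU
    rw [← hScard] at h4
    have h5 : S' ⊆ S := by
      have h6 : S = S ∪ S' := Finset.eq_of_subset_of_card_le Finset.subset_union_left h4
      rw [h6]
      exact Finset.subset_union_right
    refine h5 ?_
    rw [hS']
    exact Finset.mem_image.2 ⟨y, hy, rfl⟩
  let G : Subgroup (E ≃ₐ[L] E) :=
    { carrier := S
      one_mem' := by exact_mod_cast h1S
      inv_mem' := fun {x} hx => by
        have h1 := hdiv x (by exact_mod_cast hx) 1 h1S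
        rw [mul_one] at h1
        exact_mod_cast h1
      mul_mem' := fun {x y} hx hy => by
        have h1 := hdiv x (by exact_mod_cast hx) 1 h1S
        rw [mul_one] at h1
        have h2 := hdiv x⁻¹ h1 y (by exact_mod_cast hy)
        rw [inv_inv] at h2
        exact_mod_cast h2 }
  have hGcard : Nat.card G = S.card := by
    have h1 : Nat.card G = Nat.card (S : Set (E ≃ₐ[L] E)) := rfl
    rw [h1]
    simp
  have hHG : K.fixingSubgroup ≤ G := by
    intro η hη
    have h1 : R (S ∪ S.image fun x => x * η) = R S := by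
      rw [hR', hR']
      refine Finset.sum_congr rfl fun i _ => ?_
      have h2 : (fun (g : E ≃ₐ[L] E) (j : Fin (a i)) => g (t i j)) ''
          ((S ∪ S.image fun x => x * η : Finset (E ≃ₐ[L] E)) : Set (E ≃ₐ[L] E)) =
          (fun (g : E ≃ₐ[L] E) (j : Fin (a i)) => g (t i j)) '' (S : Set (E ≃ₐ[L] E)) := by
        rw [Finset.coe_union, Finset.coe_image, Set.image_union]
        refine Set.union_eq_left.2 ?_
        rintro _ ⟨_, ⟨x, hx, rfl⟩, rfl⟩
        refine ⟨x, hx, ?_⟩
        funext j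
        change x (t i j) = (x * η) (t i j)
        rw [AlgEquiv.mul_apply]
        have h3 := (IntermediateField.mem_fixingSubgroup_iff K η).1 hη (t i j) (htK i j)
        exact congrArg x h3.symm
      unfold rk
      rw [h2]
    have h4 := hmax' (S ∪ S.image fun x => x * η) ⟨1, Finset.mem_union_left _ h1S⟩ (by
      refine le_trans ?_ hSm
      rw [hh', hh', h1]
      have h5 := Finset.card_le_card (Finset.subset_union_left (s₁ := S)
        (s₂ := S.image fun x => x * η))
      omega)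
    rw [← hScard] at h4
    have h6 : S = S ∪ S.image fun x => x * η :=
      Finset.eq_of_subset_of_card_le Finset.subset_union_left h4
    have h7 : η ∈ S ∪ S.image fun x => x * η :=
      Finset.mem_union_right _ (Finset.mem_image.2 ⟨1, h1S, one_mul η⟩)
    rw [← h6] at h7
    exact_mod_cast h7
  -- the intermediate field
  obtain ⟨M, hMdef⟩ : ∃ M, M = fixedField G := ⟨_, rfl⟩
  have hMK : M ≤ K := by
    rw [hMdef, ← IsGalois.fixedField_fixingSubgroup K]
    exact IntermediateField.fixedField_le hHG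
  have hK1 : Module.finrank L K * c = Module.finrank L E := by
    rw [hc, IsGalois.card_fixingSubgroup_eq_finrank]
    exact Module.finrank_mul_finrank L K E
  have hM1 : Module.finrank L M * S.card = Module.finrank L E := by
    rw [← hGcard, hMdef, ← IntermediateField.finrank_fixedField_eq_card]
    exact Module.finrank_mul_finrank L (fixedField G) E
  have hL0 : 0 < Module.finrank L E := Module.finrank_pos
  have hMpos : 0 < Module.finrank L M := Module.finrank_pos
  have hne : M ≠ K := by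
    intro h1
    rw [h1, ← hK1] at hM1
    have h2 : 0 < Module.finrank L K := Module.finrank_pos
    have h3 := Nat.eq_of_mul_eq_mul_left h2 hM1
    omega
  have h1 := hM M hMK hne
  have h2 : ∀ i, Module.finrank M (Submodule.span M (Set.range (t i))) ≤
      rk E (fun (g : E ≃ₐ[L] E) (j : Fin (a i)) => g (t i j)) (S : Set (E ≃ₐ[L] E)) := by
    intro i
    have h3 := rank_le G (t i)
    rw [hMdef]
    exact h3
  have h3 : ((∑ i, Module.finrank M (Submodule.span M (Set.range (t i))) : ℕ) : ℤ) - k ≤ R S := by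
    rw [hR', Finset.sum_sub_distrib, Finset.sum_const, Finset.card_univ, Fintype.card_fin,
      nsmul_eq_mul, mul_one, Nat.cast_sum]
    have h4 : ∑ i, (Module.finrank M (Submodule.span M (Set.range (t i))) : ℤ) ≤
        ∑ i, (rk E (fun (g : E ≃ₐ[L] E) (j : Fin (a i)) => g (t i j))
          (S : Set (E ≃ₐ[L] E)) : ℤ) :=
      Finset.sum_le_sum fun i _ => by exact_mod_cast h2 i
    linarith
  have h4 : ((2 * Module.finrank L K + k * Module.finrank L M : ℕ) : ℤ) ≤
      (((1 + ∑ i, Module.finrank M (Submodule.span M (Set.range (t i)))) *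
          Module.finrank L M : ℕ) : ℤ) := by exact_mod_cast h1
  push_cast at h4 h3
  have h5 : ((Module.finrank L K : ℤ)) * c = Module.finrank L M * S.card := by
    exact_mod_cast hK1.trans hM1.symm
  obtain ⟨fK, hfK⟩ : ∃ fK : ℤ, fK = Module.finrank L K := ⟨_, rfl⟩
  obtain ⟨fM, hfM⟩ : ∃ fM : ℤ, fM = Module.finrank L M := ⟨_, rfl⟩
  obtain ⟨σ, hσ⟩ : ∃ σ : ℤ, σ = ∑ i, (Module.finrank M
    (Submodule.span M (Set.range (t i))) : ℤ) := ⟨_, rfl⟩
  rw [← hσ] at h3 h4
  rw [← hfK, ← hfM] at h4 h5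
  have hfM0 : 0 < fM := by
    rw [hfM]
    exact_mod_cast hMpos
  have hc0' : (0 : ℤ) < c := by exact_mod_cast hc0
  rw [hh'] at hSm
  -- 2 fK + k fM ≤ (1 + σ) fM; fK c = fM |S|; c R S - 2 (|S| - c) ≤ m ≤ 0
  have h6 : 2 * (S.card : ℤ) * fM + k * c * fM ≤ (1 + σ) * c * fM := by
    have h7 := mul_le_mul_of_nonneg_right h4 hc0'.le
    nlinarith [h7, h5]
  have h7 : 2 * (S.card : ℤ) + k * c ≤ (1 + σ) * c := by
    have h8 : (2 * (S.card : ℤ) + k * c) * fM ≤ ((1 + σ) * c) * fM := by linarith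
    exact le_of_mul_le_mul_right h8 hfM0
  have h8 : (c : ℤ) * (σ - k) ≤ c * R S := mul_le_mul_of_nonneg_left h3 hc0'.le
  nlinarith [h7, h8, hSm, hmB]

end blocks

end Pool.Agent.Helper11K9.KM
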