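import Pool.Agent.Helper11K9.KM.Blk

/-!
Ranks of sets of embeddings in the algebraic closure.
-/

set_option autoImplicit false
set_option linter.unusedSectionVars false

open IntermediateField

namespace Pool.Agent.Helper11K9.KM

/-- the rank does not decrease under extension of the field -/
theorem rk_map {E F ι : Type} [Field E] [Field F] (f : E →+* F) {a : ℕ} (x : ι → Fin a → E)
    (B : Set ι) : rk E x B ≤ rk F (fun s j => f (x s j)) B := by
  classical
  obtain ⟨κ, e, he, hspan, hli⟩ := exists_linearIndependent' E (fun s : B => x s)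
  have hκ : Finite κ := hli.finite
  have hκ' : Fintype κ := Fintype.ofFinite κ
  have hr : Set.range (fun s : B => x s) = x '' B := by
    ext v
    constructor
    · rintro ⟨s, rfl⟩
      exact ⟨s, s.2, rfl⟩
    · rintro ⟨s, hs, rfl⟩
      exact ⟨⟨s, hs⟩, rfl⟩
  have h1 : rk E x B = Fintype.card κ := by
    rw [rk, ← hr, ← hspan]
    exact finrank_span_eq_card hli
  rw [h1]
  -- dual forms
  obtain ⟨g, hg⟩ := LinearMap.exists_leftInverse_of_injective
    (Finsupp.linearCombination E (fun l : κ => x (e l))) (by
      rw [LinearMap.ker_eq_bot]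
      exact hli)
  have hw : ∀ l m, ∑ j, (g (Pi.single j 1)) l * x (e m) j = if l = m then 1 else 0 := by
    intro l m
    have h2 : g (x (e m)) = Finsupp.single m 1 := by
      have h3 := LinearMap.congr_fun hg (Finsupp.single m 1)
      rw [LinearMap.comp_apply, Finsupp.linearCombination_single, one_smul] at h3
      exact h3
    have h4 : g (x (e m)) = ∑ j, x (e m) j • g (Pi.single j 1) := by
      rw [LinearMap.pi_apply_eq_sum_univ g]
      refine Finset.sum_congr rfl fun j _ => ?_
      congr 2
      funext j'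
      rw [Pi.single_apply]
      exact if_congr eq_comm rfl rfl
    have h5 : (g (x (e m))) l = ∑ j, (g (Pi.single j 1)) l * x (e m) j := by
      rw [h4, Finsupp.finsetSum_apply]
      refine Finset.sum_congr rfl fun j _ => ?_
      rw [Finsupp.smul_apply, smul_eq_mul, mul_comm]
    rw [← h5, h2, Finsupp.single_apply]
    exact if_congr eq_comm rfl rfl
  have hli' : LinearIndependent F (fun (l : κ) (j : Fin a) => f (x (e l) j)) := by
    rw [Fintype.linearIndependent_iff]
    intro c hc l
    have h2 : ∑ j, f ((g (Pi.single j 1)) l) * (∑ m, c m • fun j => f (x (e m) j)) j = 0 := by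
      rw [hc]
      simp
    have h3 : ∑ j, f ((g (Pi.single j 1)) l) * (∑ m, c m • fun j => f (x (e m) j)) j =
        ∑ m, c m * f (if l = m then 1 else 0) := by
      simp only [Finset.sum_apply, Pi.smul_apply, smul_eq_mul, Finset.mul_sum]
      rw [Finset.sum_comm]
      refine Finset.sum_congr rfl fun m _ => ?_
      rw [← hw l m, map_sum, Finset.mul_sum]
      refine Finset.sum_congr rfl fun j _ => ?_
      rw [map_mul]
      ring
    rw [h3, Finset.sum_eq_single l (fun m _ hm => by rw [if_neg (Ne.symm hm), map_zero, mul_zero])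
      (fun h => absurd (Finset.mem_univ l) h), if_pos rfl, map_one, mul_one] at h2
    exact h2
  have h5 : Submodule.span F (Set.range fun (l : κ) (j : Fin a) => f (x (e l) j)) ≤
      Submodule.span F ((fun s j => f (x s j)) '' B) := by
    refine Submodule.span_mono ?_
    rintro _ ⟨l, rfl⟩
    exact ⟨e l, (e l).2, rfl⟩
  have h6 := Submodule.finrank_mono h5
  rw [finrank_span_eq_card hli'] at h6
  exact h6

section

variable {L K : Type} [Field L] [Field K] [Algebra L K] [FiniteDimensional L K] [CharZero L]

/-- **Ranks of sets of embeddings.** -/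
theorem link {k : ℕ} {a : Fin k → ℕ} (t : ∀ i, Fin (a i) → K) (ht : ∀ i, ∃ j, t i j ≠ 0)
    (hM : ∀ M : IntermediateField L K, M ≠ ⊤ → 2 * Module.finrank M K + k ≤
      1 + ∑ i, Module.finrank M (Submodule.span M (Set.range (t i))))
    (B : Finset (K →ₐ[L] AlgebraicClosure K)) (hB : 2 ≤ B.card) :
    2 * B.card + k ≤ 1 + ∑ i, rk (AlgebraicClosure K)
      (fun (τ : K →ₐ[L] AlgebraicClosure K) (j : Fin (a i)) => τ (t i j))
      (B : Set (K →ₐ[L] AlgebraicClosure K)) := by
  classical
  by_contra hcon
  push Not at hcon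
  have halg : Algebra.IsAlgebraic L (AlgebraicClosure K) := Algebra.IsAlgebraic.trans L K _
  have hcl : IsAlgClosure L (AlgebraicClosure K) := ⟨inferInstance, halg⟩
  have hnor : Normal L (AlgebraicClosure K) := IsAlgClosure.normal L (AlgebraicClosure K)
  let E : IntermediateField L (AlgebraicClosure K) := normalClosure L K (AlgebraicClosure K)
  have hE1 : FiniteDimensional L E := inferInstanceAs
    (FiniteDimensional L (normalClosure L K (AlgebraicClosure K)))
  have hE2 : Normal L E := inferInstanceAs (Normal L (normalClosure L K (AlgebraicClosure K)))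
  have hE3 : IsGalois L E := ⟨⟩
  have hτE : ∀ (τ : K →ₐ[L] AlgebraicClosure K) (z : K), τ z ∈ E := fun τ z =>
    τ.fieldRange_le_normalClosure ⟨z, rfl⟩
  let i0 : K →ₐ[L] AlgebraicClosure K := IsScalarTower.toAlgHom L K (AlgebraicClosure K)
  let j0 : K →ₐ[L] E := i0.codRestrict E.toSubalgebra (hτE i0)
  have hj0 : ∀ z, ((j0 z : E) : AlgebraicClosure K) = algebraMap K (AlgebraicClosure K) z :=
    fun z => rfl
  -- automorphisms
  have hlift : ∀ τ : K →ₐ[L] AlgebraicClosure K, ∃ g : E ≃ₐ[L] E,
      ∀ z, ((g (j0 z) : E) : AlgebraicClosure K) = τ z := by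
    intro τ
    obtain ⟨φ, hφ⟩ := IsAlgClosed.surjective_domRestrict_of_isAlgebraic (K := L) (L := K)
      (M := AlgebraicClosure K) (E := AlgebraicClosure K) τ
    refine ⟨(Algebra.IsAlgebraic.algEquivEquivAlgHom L (AlgebraicClosure K)).symm φ
      |>.restrictNormal E, fun z => ?_⟩
    rw [AlgEquiv.restrictNormal_apply, hj0]
    exact DFunLike.congr_fun hφ z
  choose g hg using hlift
  obtain ⟨KE, hKE⟩ : ∃ KE : IntermediateField L E, KE = j0.fieldRange := ⟨_, rfl⟩
  have hfin : Fintype KE.fixingSubgroup := Fintype.ofFinite _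
  obtain ⟨H, hH⟩ : ∃ H : Finset (E ≃ₐ[L] E), H = Finset.univ.filter (· ∈ KE.fixingSubgroup) :=
    ⟨_, rfl⟩
  have hHc : H.card = Nat.card KE.fixingSubgroup := by
    rw [hH, ← Fintype.card_subtype, ← Nat.card_eq_fintype_card]
  have hHmem : ∀ η ∈ H, ∀ z, η (j0 z) = j0 z := by
    intro η hη z
    rw [hH, Finset.mem_filter] at hη
    exact (IntermediateField.mem_fixingSubgroup_iff KE η).1 hη.2 (j0 z) (by
      rw [hKE]
      exact ⟨z, rfl⟩)
  obtain ⟨S, hS⟩ : ∃ S : Finset (E ≃ₐ[L] E), S = (B ×ˢ H).image fun p => g p.1 * p.2 := ⟨_, rfl⟩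
  have hval : ∀ (τ : K →ₐ[L] AlgebraicClosure K), ∀ η ∈ H, ∀ z,
      (((g τ * η) (j0 z) : E) : AlgebraicClosure K) = τ z := by
    intro τ η hη z
    rw [AlgEquiv.mul_apply, hHmem η hη, hg]
  have hScard : S.card = B.card * H.card := by
    rw [hS, Finset.card_image_of_injOn, Finset.card_product]
    rintro ⟨τ, η⟩ hp ⟨τ', η'⟩ hp' h
    rw [Finset.coe_product, Set.mem_prod] at hp hp'
    have h1 : τ = τ' := by
      ext z
      have h2 := congrArg (fun q : E ≃ₐ[L] E => ((q (j0 z) : E) : AlgebraicClosure K)) h
      change (((g τ * η) (j0 z) : E) : AlgebraicClosure K) =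
        (((g τ' * η') (j0 z) : E) : AlgebraicClosure K) at h2
      rw [hval τ η hp.2, hval τ' η' hp'.2] at h2
      exact h2
    subst h1
    have h2 : η = η' := mul_left_cancel h
    rw [h2]
  have hrk : ∀ i, rk E (fun (h : E ≃ₐ[L] E) (j : Fin (a i)) => h (j0 (t i j)))
      (S : Set (E ≃ₐ[L] E)) ≤ rk (AlgebraicClosure K)
      (fun (τ : K →ₐ[L] AlgebraicClosure K) (j : Fin (a i)) => τ (t i j))
      (B : Set (K →ₐ[L] AlgebraicClosure K)) := by
    intro i
    refine (rk_map E.val.toRingHom _ _).trans ?_
    refine Submodule.finrank_mono (Submodule.span_mono ?_)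
    rintro _ ⟨h, hh, rfl⟩
    rw [Finset.mem_coe, hS, Finset.mem_image] at hh
    obtain ⟨⟨τ, η⟩, hp, rfl⟩ := hh
    rw [Finset.mem_product] at hp
    exact ⟨τ, hp.1, funext fun j => (hval τ η hp.2 (t i j)).symm⟩
  refine blk_aux KE (fun i j => j0 (t i j)) (fun i j => by
    rw [hKE]
    exact ⟨t i j, rfl⟩) (fun i => ?_) (fun M' hM'1 hM'2 => ?_) S ?_ ?_
  · obtain ⟨j, hj⟩ := ht i
    exact ⟨j, by rwa [Ne, map_eq_zero]⟩
  · -- translate the hypothesis
    obtain ⟨M, hMdef⟩ : ∃ M : IntermediateField L K, M = M'.comap j0 := ⟨_, rfl⟩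
    have hMM' : M.map j0 = M' := by
      ext z
      rw [IntermediateField.mem_map]
      constructor
      · rintro ⟨y, hy, rfl⟩
        rw [hMdef] at hy
        exact hy
      · intro hz
        have h1 := hM'1 hz
        rw [hKE] at h1
        obtain ⟨y, rfl⟩ := h1
        refine ⟨y, ?_, rfl⟩
        rw [hMdef]
        exact hz
    have hMtop : M ≠ ⊤ := by
      intro h1
      apply hM'2
      rw [← hMM', h1, hKE]
      ext z
      rw [IntermediateField.mem_map]
      constructor
      · rintro ⟨y, -, rfl⟩
        exact ⟨y, rfl⟩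
      · rintro ⟨y, rfl⟩
        exact ⟨y, IntermediateField.mem_top, rfl⟩
    have h1 := hM M hMtop
    have hfM : Module.finrank L M = Module.finrank L M' := by
      rw [← hMM']
      exact (M.equivMap j0).toLinearEquiv.finrank_eq
    have hfK : Module.finrank L K = Module.finrank L KE := by
      rw [hKE]
      exact (AlgEquiv.ofInjectiveField j0).toLinearEquiv.finrank_eq
    have hW : ∀ i, Module.finrank L M * Module.finrank M (Submodule.span M (Set.range (t i))) ≤
        Module.finrank L M' * Module.finrank M'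
          (Submodule.span M' (Set.range fun j => j0 (t i j))) := by
      intro i
      rw [Module.finrank_mul_finrank, Module.finrank_mul_finrank]
      have h2 : ((Submodule.span M (Set.range (t i))).restrictScalars L).map j0.toLinearMap ≤
          (Submodule.span M' (Set.range fun j => j0 (t i j))).restrictScalars L := by
        rintro _ ⟨w, hw, rfl⟩
        change w ∈ Submodule.span M (Set.range (t i)) at hw
        change j0 w ∈ Submodule.span M' (Set.range fun j => j0 (t i j))
        induction hw using Submodule.span_induction with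
        | mem x hx =>
          obtain ⟨j, rfl⟩ := hx
          exact Submodule.subset_span ⟨j, rfl⟩
        | zero =>
          rw [map_zero]
          exact Submodule.zero_mem _
        | add x y _ _ hx hy =>
          rw [map_add]
          exact Submodule.add_mem _ hx hy
        | smul c x _ hx =>
          have h3 : j0 (c • x) = (⟨j0 c, by
            have h4 := c.2
            have h5 : j0 (c : K) ∈ M.map j0 := ⟨c, h4, rfl⟩
            rw [hMM'] at h5
            exact h5⟩ : M') • j0 x := by
            change j0 ((c : K) * x) = j0 c * j0 x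
            rw [map_mul]
          rw [h3]
          exact Submodule.smul_mem _ _ hx
      have h3 := Submodule.finrank_mono h2
      have h4 := (Submodule.equivMapOfInjective j0.toLinearMap j0.injective
        ((Submodule.span M (Set.range (t i))).restrictScalars L)).finrank_eq
      rw [← h4] at h3
      exact h3
    have h2 : Module.finrank L M * (2 * Module.finrank M K + k) ≤ Module.finrank L M *
        (1 + ∑ i, Module.finrank M (Submodule.span M (Set.range (t i)))) :=
      Nat.mul_le_mul_left _ h1
    have h3 : Module.finrank L M * Module.finrank M K = Module.finrank L K :=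
      Module.finrank_mul_finrank L M K
    rw [mul_add, mul_add, mul_left_comm, h3, mul_one, Finset.mul_sum] at h2
    have h4 := Finset.sum_le_sum fun i (_ : i ∈ (Finset.univ : Finset (Fin k))) => hW i
    rw [add_mul, one_mul, Finset.sum_mul, ← hfK, ← hfM]
    rw [← hfM] at h4
    have h5 : ∑ i, Module.finrank M' (Submodule.span M' (Set.range fun j => j0 (t i j))) *
        Module.finrank L M = ∑ i, Module.finrank L M * Module.finrank M'
          (Submodule.span M' (Set.range fun j => j0 (t i j))) :=
      Finset.sum_congr rfl fun i _ => mul_comm _ _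
    rw [h5, mul_comm k]
    exact h2.trans (Nat.add_le_add_left h4 _)
  · rw [hScard, hHc]
    exact Nat.mul_le_mul_right _ hB
  · rw [hScard, hHc]
    have h1 : ∑ i, ((rk E (fun (h : E ≃ₐ[L] E) (j : Fin (a i)) => h (j0 (t i j)))
        (S : Set (E ≃ₐ[L] E)) : ℤ) - 1) ≤ 2 * (B.card - 1) := by
      have h2 : ∑ i, ((rk E (fun (h : E ≃ₐ[L] E) (j : Fin (a i)) => h (j0 (t i j)))
          (S : Set (E ≃ₐ[L] E)) : ℤ)) ≤ ∑ i, (rk (AlgebraicClosure K)
          (fun (τ : K →ₐ[L] AlgebraicClosure K) (j : Fin (a i)) => τ (t i j))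
          (B : Set (K →ₐ[L] AlgebraicClosure K)) : ℤ) :=
        Finset.sum_le_sum fun i _ => by exact_mod_cast hrk i
      rw [Finset.sum_sub_distrib, Finset.sum_const, Finset.card_univ, Fintype.card_fin,
        nsmul_eq_mul, mul_one]
      have h3 : ((1 + ∑ i, rk (AlgebraicClosure K)
        (fun (τ : K →ₐ[L] AlgebraicClosure K) (j : Fin (a i)) => τ (t i j))
        (B : Set (K →ₐ[L] AlgebraicClosure K)) : ℕ) : ℤ) < ((2 * B.card + k : ℕ) : ℤ) := by
        exact_mod_cast hcon
      push_cast at h3
      linarith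
    have h2 := mul_le_mul_of_nonneg_left h1 (Nat.cast_nonneg (α := ℤ) (Nat.card KE.fixingSubgroup))
    refine h2.trans (le_of_eq ?_)
    push_cast
    ring

end

end Pool.Agent.Helper11K9.KM
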