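import Mathlib

/-!
Matroid union for monotone submodular functions (Rado, Edmonds).
-/

set_option autoImplicit false

namespace Pool.Agent.Helper11K9.KM

theorem rado_aux {σ : Type} [Fintype σ] [DecidableEq σ] {k : ℕ} (ρ : Fin k → Finset σ → ℕ)
    (hmono : ∀ i A B, A ⊆ B → ρ i A ≤ ρ i B)
    (hsub : ∀ i A B, ρ i (A ∪ B) + ρ i (A ∩ B) ≤ ρ i A + ρ i B) (h0 : ∀ i, ρ i ∅ = 0) :
    ∀ (n : ℕ) (D : σ → Finset (Fin k)), ∑ s, (D s).card = n →
      (∀ B : Finset σ, B.card ≤ ∑ l, ρ l (B.filter fun s => l ∈ D s)) →
      ∃ c : σ → Fin k, ∀ i, (Finset.univ.filter fun s => c s = i).card ≤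
        ρ i (Finset.univ.filter fun s => c s = i) := by
  intro n
  induction n using Nat.strong_induction_on with
  | _ n ih =>
    intro D hD hB
    by_cases hbig : ∃ s, 1 < (D s).card
    · obtain ⟨s, hs⟩ := hbig
      obtain ⟨i, hi, j, hj, hij⟩ := Finset.one_lt_card.1 hs
      -- removing a colour decreases the sum
      have hdec : ∀ l ∈ D s, ∑ x, (Function.update D s ((D s).erase l) x).card < n := by
        intro l hl
        rw [← hD]
        refine Finset.sum_lt_sum (fun x _ => ?_) ⟨s, Finset.mem_univ s, ?_⟩
        · by_cases hx : x = s
          · rw [hx, Function.update_self]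
            exact Finset.card_le_card (Finset.erase_subset _ _)
          · rw [Function.update_of_ne hx]
        · rw [Function.update_self]
          exact Finset.card_erase_lt_of_mem hl
      by_cases h1 : ∀ B : Finset σ, B.card ≤
          ∑ l, ρ l (B.filter fun x => l ∈ Function.update D s ((D s).erase i) x)
      · exact ih _ (hdec i hi) _ rfl h1
      by_cases h2 : ∀ B : Finset σ, B.card ≤
          ∑ l, ρ l (B.filter fun x => l ∈ Function.update D s ((D s).erase j) x)
      · exact ih _ (hdec j hj) _ rfl h2
      exfalso
      push Not at h1 h2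
      obtain ⟨B, hB1⟩ := h1
      obtain ⟨B', hB2⟩ := h2
      have hmem : ∀ (C : Finset σ) (l' : Fin k),
          (∑ l, ρ l (C.filter fun x => l ∈ Function.update D s ((D s).erase l') x)) < C.card →
          s ∈ C := by
        intro C l' hC
        by_contra hsC
        have h3 := hB C
        have h4 : ∀ l, (C.filter fun x => l ∈ Function.update D s ((D s).erase l') x) =
            C.filter fun x => l ∈ D x := by
          intro l
          refine Finset.filter_congr fun x hx => ?_
          rw [Function.update_of_ne (fun h : x = s => hsC (by rw [← h]; exact hx))]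
        simp only [h4] at hC
        omega
      have hsB := hmem B i hB1
      have hsB' := hmem B' j hB2
      have h5 : ∑ l, ρ l ((B ∪ B').filter fun x => l ∈ D x) +
          ∑ l, ρ l (((B ∩ B').erase s).filter fun x => l ∈ D x) ≤
          ∑ l, ρ l (B.filter fun x => l ∈ Function.update D s ((D s).erase i) x) +
          ∑ l, ρ l (B'.filter fun x => l ∈ Function.update D s ((D s).erase j) x) := by
        rw [← Finset.sum_add_distrib, ← Finset.sum_add_distrib]
        refine Finset.sum_le_sum fun l _ => ?_
        refine le_trans (Nat.add_le_add (hmono l _ _ ?_) (hmono l _ _ ?_)) (hsub l _ _)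
        · intro x hx
          rw [Finset.mem_filter, Finset.mem_union] at hx
          rw [Finset.mem_union, Finset.mem_filter, Finset.mem_filter]
          by_cases hxs : x = s
          · subst hxs
            rw [Function.update_self, Function.update_self, Finset.mem_erase, Finset.mem_erase]
            by_cases hl : l = i
            · right
              exact ⟨hsB', by rw [hl]; exact hij, hx.2⟩
            · left
              exact ⟨hsB, hl, hx.2⟩
          · rw [Function.update_of_ne hxs, Function.update_of_ne hxs]
            tauto
        · intro x hx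
          rw [Finset.mem_filter, Finset.mem_erase, Finset.mem_inter] at hx
          rw [Finset.mem_inter, Finset.mem_filter, Finset.mem_filter,
            Function.update_of_ne hx.1.1, Function.update_of_ne hx.1.1]
          tauto
      have h6 := hB (B ∪ B')
      have h7 := hB ((B ∩ B').erase s)
      have h8 := Finset.card_union_add_card_inter B B'
      have h9 := Finset.card_erase_of_mem (Finset.mem_inter.2 ⟨hsB, hsB'⟩)
      have h10 : 0 < (B ∩ B').card := Finset.card_pos.2 ⟨s, Finset.mem_inter.2 ⟨hsB, hsB'⟩⟩
      omega
    · push Not at hbig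
      have hne : ∀ s, ∃ c, D s = {c} := by
        intro s
        have h1 : (D s).Nonempty := by
          by_contra hcon
          rw [Finset.not_nonempty_iff_eq_empty] at hcon
          have h2 := hB {s}
          have h3 : ∀ l, (({s} : Finset σ).filter fun x => l ∈ D x) = ∅ := by
            intro l
            rw [Finset.filter_eq_empty_iff]
            intro x hx
            rw [Finset.mem_singleton] at hx
            rw [hx, hcon]
            simp
          simp only [h3, h0, Finset.sum_const_zero, Finset.card_singleton] at h2
          omega
        have h2 : (D s).card = 1 := le_antisymm (hbig s) (Finset.card_pos.2 h1)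
        exact Finset.card_eq_one.1 h2
      choose c hc using hne
      refine ⟨c, fun i => ?_⟩
      have h1 := hB (Finset.univ.filter fun s => c s = i)
      have h2 : ∀ l, l ≠ i → ((Finset.univ.filter fun s => c s = i).filter fun x => l ∈ D x) =
          ∅ := by
        intro l hl
        rw [Finset.filter_eq_empty_iff]
        intro x hx
        rw [hc x, Finset.mem_singleton, (Finset.mem_filter.1 hx).2]
        exact hl
      have h3 : ((Finset.univ.filter fun s => c s = i).filter fun x => i ∈ D x) =
          Finset.univ.filter fun s => c s = i := by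
        rw [Finset.filter_eq_self]
        intro x hx
        rw [hc x, Finset.mem_singleton, (Finset.mem_filter.1 hx).2]
      rw [Finset.sum_eq_single i (fun l _ hl => by rw [h2 l hl, h0]) (fun h => absurd
        (Finset.mem_univ i) h), h3] at h1
      exact h1

/-- **Matroid union.** -/
theorem rado {σ : Type} [Fintype σ] [DecidableEq σ] {k : ℕ} (ρ : Fin k → Finset σ → ℕ)
    (hmono : ∀ i A B, A ⊆ B → ρ i A ≤ ρ i B)
    (hsub : ∀ i A B, ρ i (A ∪ B) + ρ i (A ∩ B) ≤ ρ i A + ρ i B) (h0 : ∀ i, ρ i ∅ = 0)
    (h : ∀ B : Finset σ, B.card ≤ ∑ i, ρ i B) :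
    ∃ c : σ → Fin k, ∀ i, (Finset.univ.filter fun s => c s = i).card ≤
        ρ i (Finset.univ.filter fun s => c s = i) :=
  rado_aux ρ hmono hsub h0 _ (fun _ => Finset.univ) rfl fun B => by
    refine (h B).trans_eq (Finset.sum_congr rfl fun l _ => ?_)
    congr 1
    ext x
    simp

end Pool.Agent.Helper11K9.KM
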