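import Mathlib
import Pool.Agent.Helper11K9.KM.Rado
import Pool.Agent.Helper11K9.KM.Blk

/-!
Linear relations between rank one tensors with nonzero coefficients.
-/

set_option autoImplicit false
set_option linter.unusedSectionVars false

namespace Pool.Agent.Helper11K9.KM

/-- a linear form with prescribed zeros -/
theorem exists_form {Ω ι : Type} [Field Ω] [DecidableEq ι] {a : ℕ} {x : ι → Fin a → Ω}
    {s0 : ι} {I : Finset ι} (hs0 : s0 ∉ I)
    (h : I.card + 1 ≤ rk Ω x (insert s0 (I : Set ι))) :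
    ∃ w : Fin a → Ω, (∀ s ∈ I, ∑ j, w j * x s j = 0) ∧ ∑ j, w j * x s0 j ≠ 0 := by
  classical
  obtain ⟨J, hJ⟩ : ∃ J : Finset ι, J = insert s0 I := ⟨_, rfl⟩
  have hJc : J.card = I.card + 1 := by
    rw [hJ, Finset.card_insert_of_notMem hs0]
  have hli : LinearIndependent Ω (fun s : J => x s) := by
    rw [linearIndependent_iff_card_le_finrank_span, Fintype.card_coe, hJc]
    have h1 : Set.range (fun s : J => x s) = x '' (insert s0 (I : Set ι)) := by
      ext v
      constructor
      · rintro ⟨s, rfl⟩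
        refine ⟨s, ?_, rfl⟩
        have h2 : (s : ι) ∈ insert s0 I := hJ ▸ s.2
        rw [Finset.mem_insert] at h2
        exact h2
      · rintro ⟨s, hs, rfl⟩
        refine ⟨⟨s, ?_⟩, rfl⟩
        rw [hJ, Finset.mem_insert]
        exact hs
    rw [Set.finrank, h1]
    exact h
  have hs0J : s0 ∈ J := by
    rw [hJ]
    exact Finset.mem_insert_self _ _
  have hnot : x s0 ∉ Submodule.span Ω (x '' (I : Set ι)) := by
    have h1 := hli.notMem_span_image (s := {s : J | (s : ι) ∈ I}) (x := ⟨s0, hs0J⟩) (by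
      intro h2
      exact hs0 h2)
    intro h2
    apply h1
    have h3 : (fun s : J => x s) '' {s : J | (s : ι) ∈ I} = x '' (I : Set ι) := by
      ext v
      constructor
      · rintro ⟨s, hs, rfl⟩
        exact ⟨s, hs, rfl⟩
      · rintro ⟨s, hs, rfl⟩
        refine ⟨⟨s, ?_⟩, hs, rfl⟩
        rw [hJ, Finset.mem_insert]
        exact Or.inr hs
    rw [h3]
    exact h2
  obtain ⟨f, hf, hf'⟩ := Submodule.exists_dual_map_eq_bot_of_notMem hnot inferInstance
  have hfe : ∀ v : Fin a → Ω, f v = ∑ j, f (Pi.single j 1) * v j := by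
    intro v
    rw [LinearMap.pi_apply_eq_sum_univ f v]
    refine Finset.sum_congr rfl fun j _ => ?_
    rw [smul_eq_mul, mul_comm]
    congr 2
    funext j'
    rw [Pi.single_apply]
    exact if_congr eq_comm rfl rfl
  refine ⟨fun j => f (Pi.single j 1), fun s hs => ?_, ?_⟩
  · rw [← hfe]
    have h1 : f (x s) ∈ (Submodule.span Ω (x '' (I : Set ι))).map f :=
      ⟨x s, Submodule.subset_span ⟨s, hs, rfl⟩, rfl⟩
    rw [hf'] at h1
    exact (Submodule.mem_bot Ω).1 h1
  · rw [← hfe]
    exact hf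

/-- **Relations between rank one tensors.** -/
theorem q {Ω ι : Type} [Field Ω] [Fintype ι] [Nonempty ι] {k : ℕ} {a : Fin k → ℕ}
    {x : ∀ i : Fin k, ι → Fin (a i) → Ω} (hx : ∀ i s, x i s ≠ 0) {c : ι → Ω} (hc : ∀ s, c s ≠ 0)
    (hR : ∀ e : ∀ i : Fin k, Fin (a i), ∑ s, c s * ∏ i, x i s (e i) = 0) :
    ∃ B : Finset ι, B.Nonempty ∧ 2 + ∑ i, rk Ω (x i) (B : Set ι) ≤ B.card + k := by
  classical
  by_contra hcon
  push Not at hcon
  obtain ⟨s0⟩ := ‹Nonempty ι›
  obtain ⟨ρ, hρ⟩ : ∃ ρ : Fin k → Finset {s : ι // s ≠ s0} → ℕ, ρ = fun i (B : Finset {s : ι // s ≠ s0}) =>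
    rk Ω (x i) (insert s0 (Subtype.val '' (B : Set {s : ι // s ≠ s0}))) - 1 := ⟨_, rfl⟩
  have hρ' : ∀ i B, ρ i B + 1 =
      rk Ω (x i) (insert s0 (Subtype.val '' (B : Set {s : ι // s ≠ s0}))) := by
    intro i B
    have h1 : 1 ≤ rk Ω (x i) (insert s0 (Subtype.val '' (B : Set {s : ι // s ≠ s0}))) :=
      rk_pos (Set.mem_insert _ _) (hx i s0)
    rw [hρ]
    change rk Ω (x i) (insert s0 (Subtype.val '' (B : Set {s : ι // s ≠ s0}))) - 1 + 1 = _
    omega
  have hmono : ∀ i A B, A ⊆ B → ρ i A ≤ ρ i B := by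
    intro i A B hAB
    have h1 := hρ' i A
    have h2 := hρ' i B
    have h3 := rk_mono (E := Ω) (x i) (A := insert s0 (Subtype.val '' (A : Set {s : ι // s ≠ s0})))
      (B := insert s0 (Subtype.val '' (B : Set {s : ι // s ≠ s0})))
      (Set.insert_subset_insert (Set.image_mono (Finset.coe_subset.2 hAB)))
    omega
  have hsub : ∀ i A B, ρ i (A ∪ B) + ρ i (A ∩ B) ≤ ρ i A + ρ i B := by
    intro i A B
    have h1 := hρ' i A
    have h2 := hρ' i B
    have h3 := hρ' i (A ∪ B)
    have h4 := hρ' i (A ∩ B)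
    have h5 := rk_submod (E := Ω) (x i) (insert s0 (Subtype.val '' (A : Set {s : ι // s ≠ s0})))
      (insert s0 (Subtype.val '' (B : Set {s : ι // s ≠ s0})))
    have h6 : insert s0 (Subtype.val '' ((A ∪ B : Finset {s : ι // s ≠ s0}) : Set {s : ι // s ≠ s0})) =
        insert s0 (Subtype.val '' (A : Set {s : ι // s ≠ s0})) ∪
        insert s0 (Subtype.val '' (B : Set {s : ι // s ≠ s0})) := by
      rw [Finset.coe_union, Set.image_union, ← Set.insert_union_distrib]
    have h7 : insert s0 (Subtype.val '' ((A ∩ B : Finset {s : ι // s ≠ s0}) : Set {s : ι // s ≠ s0})) =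
        insert s0 (Subtype.val '' (A : Set {s : ι // s ≠ s0})) ∩
        insert s0 (Subtype.val '' (B : Set {s : ι // s ≠ s0})) := by
      rw [Finset.coe_inter, Set.image_inter Subtype.val_injective, ← Set.insert_inter_distrib]
    rw [h6] at h3
    rw [h7] at h4
    omega
  have h0 : ∀ i, ρ i ∅ = 0 := by
    intro i
    have h1 := hρ' i ∅
    have h2 : rk Ω (x i) (insert s0 (Subtype.val '' ((∅ : Finset {s : ι // s ≠ s0}) : Set {s : ι // s ≠ s0}))) = 1 := by
      rw [rk, Finset.coe_empty, Set.image_empty, Set.image_insert_eq, Set.image_empty,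
        insert_empty_eq]
      exact finrank_span_singleton (hx i s0)
    omega
  have hB : ∀ B : Finset {s : ι // s ≠ s0}, B.card ≤ ∑ i, ρ i B := by
    intro B
    obtain ⟨B1, hB1⟩ : ∃ B1 : Finset ι, B1 = insert s0 (B.map (Function.Embedding.subtype _)) :=
      ⟨_, rfl⟩
    have h1 : B1.card = B.card + 1 := by
      rw [hB1, Finset.card_insert_of_notMem, Finset.card_map]
      rw [Finset.mem_map]
      rintro ⟨s, -, hs⟩
      exact s.2 hs
    have h2 := hcon B1 ⟨s0, by rw [hB1]; exact Finset.mem_insert_self _ _⟩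
    have h3 : ∑ i, rk Ω (x i) (B1 : Set ι) = ∑ i, ρ i B + k := by
      have h4 : ∑ i, ρ i B + k = ∑ i, (ρ i B + 1) := by
        rw [Finset.sum_add_distrib, Finset.sum_const, Finset.card_univ, Fintype.card_fin,
          smul_eq_mul, mul_one]
      rw [h4]
      refine Finset.sum_congr rfl fun i _ => ?_
      rw [hρ', hB1, Finset.coe_insert, Finset.coe_map]
      rfl
    omega
  obtain ⟨col, hcol⟩ := rado ρ hmono hsub h0 hB
  have hw : ∀ i, ∃ w : Fin (a i) → Ω, (∀ s : {s : ι // s ≠ s0}, col s = i →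
      ∑ j, w j * x i s j = 0) ∧ ∑ j, w j * x i s0 j ≠ 0 := by
    intro i
    obtain ⟨I, hI⟩ : ∃ I : Finset ι, I = (Finset.univ.filter fun s => col s = i).map
      (Function.Embedding.subtype _) := ⟨_, rfl⟩
    have hs0I : s0 ∉ I := by
      rw [hI, Finset.mem_map]
      rintro ⟨s, -, hs⟩
      exact s.2 hs
    obtain ⟨w, hw1, hw2⟩ := exists_form (x := x i) hs0I (by
      have h1 := hcol i
      have h2 := hρ' i (Finset.univ.filter fun s => col s = i)
      have h3 : I.card = (Finset.univ.filter fun s => col s = i).card := by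
        rw [hI, Finset.card_map]
      have h4 : (I : Set ι) = Subtype.val '' ((Finset.univ.filter fun s => col s = i :
          Finset {s : ι // s ≠ s0}) : Set {s : ι // s ≠ s0}) := by
        rw [hI, Finset.coe_map]
        rfl
      rw [h4, ← h2, h3]
      omega)
    refine ⟨w, fun s hs => hw1 s ?_, hw2⟩
    rw [hI, Finset.mem_map]
    exact ⟨s, Finset.mem_filter.2 ⟨Finset.mem_univ _, hs⟩, rfl⟩
  choose w hw1 hw2 using hw
  have hsum : ∑ s, c s * ∏ i, ∑ j, w i j * x i s j = 0 := by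
    have h1 : ∀ s, c s * ∏ i, ∑ j, w i j * x i s j =
        ∑ e : ∀ i, Fin (a i), (∏ i, w i (e i)) * (c s * ∏ i, x i s (e i)) := by
      intro s
      rw [Finset.prod_univ_sum, Fintype.piFinset_univ, Finset.mul_sum]
      refine Finset.sum_congr rfl fun e _ => ?_
      rw [Finset.prod_mul_distrib]
      ring
    simp only [h1]
    rw [Finset.sum_comm]
    refine Finset.sum_eq_zero fun e _ => ?_
    rw [← Finset.mul_sum, hR e, mul_zero]
  rw [Finset.sum_eq_single s0] at hsum
  · rcases mul_eq_zero.1 hsum with h1 | h1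
    · exact hc s0 h1
    · rw [Finset.prod_eq_zero_iff] at h1
      obtain ⟨i, -, hi⟩ := h1
      exact hw2 i hi
  · intro s _ hs
    have h1 := hw1 (col ⟨s, hs⟩) ⟨s, hs⟩ rfl
    rw [Finset.prod_eq_zero (Finset.mem_univ (col ⟨s, hs⟩)) h1, mul_zero]
  · intro h
    exact absurd (Finset.mem_univ s0) h

end Pool.Agent.Helper11K9.KM
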