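import Pool.Agent.Helper11K9.KN.Kap
import Pool.Agent.Helper11K9.KR.Pol
import Pool.Agent.Helper11K9.KM.Q
import Pool.Agent.Helper11K9.KM.Link

/-!
The Kodaira dimension of images and linear spans of fibres.
-/

set_option autoImplicit false
set_option linter.overlappingInstances false
set_option linter.unusedSectionVars false

open FF IntermediateField

namespace Pool.Agent.Helper11K9.KM

open Pool.Agent.W602.GT (Divisorial RegAt IsPluri KodGe LogSec)
open Pool.Agent.R882.Over (GenusZero)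
open Pool.Agent.Helper11K9.PR Pool.Agent.Helper11K9.KR Pool.Agent.Helper11K9.MT

/-- two vectors which span a line -/
theorem prop_of_rk {Ω : Type} [Field Ω] {ι : Type} {a : ℕ} {x : ι → Fin a → Ω} {B : Set ι}
    {s s' : ι} (hs : s ∈ B) (hs' : s' ∈ B) (h0 : x s' ≠ 0) (h : rk Ω x B ≤ 1) :
    ∃ lam : Ω, x s = lam • x s' := by
  have h1 : Submodule.span Ω {x s'} ≤ Submodule.span Ω (x '' B) :=
    Submodule.span_mono (by
      rintro _ rfl
      exact ⟨s', hs', rfl⟩)
  have h2 : Submodule.span Ω {x s'} = Submodule.span Ω (x '' B) :=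
    Submodule.eq_of_le_of_finrank_le h1 (by
      rw [finrank_span_singleton h0]
      exact h)
  have h3 : x s ∈ Submodule.span Ω {x s'} := by
    rw [h2]
    exact Submodule.subset_span ⟨s, hs, rfl⟩
  obtain ⟨lam, hlam⟩ := Submodule.mem_span_singleton.1 h3
  exact ⟨lam, hlam.symm⟩

section

variable {K : Type} [Field K] [Algebra ℂ K] {L : IntermediateField ℂ K} [FiniteDimensional L K]

/-- **Two copies.** -/
theorem two_kap (N : IntermediateField ℂ L) {J : K} (hJ : J ≠ 0) {k : ℕ} {a : Fin k → ℕ}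
    {t : ∀ i, Fin (a i) → K} (ht : ∀ i, ∃ j, t i j ≠ 0)
    (hM : ∀ M : IntermediateField L K, M ≠ ⊤ → 2 * Module.finrank M K + k ≤
      1 + ∑ i, Module.finrank M (Submodule.span M (Set.range (t i))))
    {e1 : ∀ i, Fin (a i)} (hT0 : Algebra.trace L K (J * ∏ i, t i (e1 i)) ≠ 0)
    (hN : ∀ e : ∀ i, Fin (a i), Algebra.trace L K (J * ∏ i, t i (e i)) /
      Algebra.trace L K (J * ∏ i, t i (e1 i)) ∈ N) (i : Fin k) {j j' : Fin (a i)}
    (hj' : t i j' ≠ 0) : IsAlgebraic N (t i j / t i j') := by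
  classical
  obtain ⟨Ω, i1, i2, A, A', c, hc0, hab, hR⟩ := exists_rel' N hJ
    (X := ∀ i, Fin (a i)) (fun e => ∏ i, t i (e i)) (x0 := e1) hT0 hN
  have hL0 : CharZero L := charZero_of_injective_algebraMap (algebraMap ℂ L).injective
  have hpos : 0 < Module.finrank L K := Module.finrank_pos
  have hne : Nonempty ((K →ₐ[L] AlgebraicClosure K) ⊕ (K →ₐ[L] AlgebraicClosure K)) :=
    Fintype.card_pos_iff.1 (by
      rw [Fintype.card_sum, AlgHom.card]
      omega)
  have hx : ∀ (i : Fin k) (s : (K →ₐ[L] AlgebraicClosure K) ⊕ (K →ₐ[L] AlgebraicClosure K)),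
      (fun j => phi L A A' s (t i j)) ≠ 0 := by
    intro i s h
    obtain ⟨j, hj⟩ := ht i
    have h1 := congrFun h j
    change phi L A A' s (t i j) = 0 at h1
    rw [map_eq_zero] at h1
    exact hj h1
  obtain ⟨B, hB, hB'⟩ := q (x := fun i s j => phi L A A' s (t i j)) hx hc0 (fun e => by
    rw [← hR e]
    refine Finset.sum_congr rfl fun s _ => ?_
    rw [map_prod])
  have hrk1 : ∀ i, 1 ≤ rk Ω (fun s j => phi L A A' s (t i j)) (B : Set _) := by
    intro i
    obtain ⟨s, hs⟩ := hB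
    exact rk_pos (Finset.mem_coe.2 hs) (hx i s)
  have hleft : ∀ i, rk (AlgebraicClosure K)
      (fun (τ : K →ₐ[L] AlgebraicClosure K) (j : Fin (a i)) => τ (t i j))
      (B.toLeft : Set (K →ₐ[L] AlgebraicClosure K)) ≤
      rk Ω (fun s j => phi L A A' s (t i j)) (B : Set _) := by
    intro i
    refine (rk_map A.toRingHom _ _).trans (Submodule.finrank_mono (Submodule.span_mono ?_))
    rintro _ ⟨τ, hτ, rfl⟩
    exact ⟨Sum.inl τ, Finset.mem_toLeft.1 hτ, rfl⟩
  have hright : ∀ i, rk (AlgebraicClosure K)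
      (fun (τ : K →ₐ[L] AlgebraicClosure K) (j : Fin (a i)) => τ (t i j))
      (B.toRight : Set (K →ₐ[L] AlgebraicClosure K)) ≤
      rk Ω (fun s j => phi L A A' s (t i j)) (B : Set _) := by
    intro i
    refine (rk_map A'.toRingHom _ _).trans (Submodule.finrank_mono (Submodule.span_mono ?_))
    rintro _ ⟨τ, hτ, rfl⟩
    exact ⟨Sum.inr τ, Finset.mem_toRight.1 hτ, rfl⟩
  have hcard := Finset.card_toLeft_add_card_toRight (u := B)
  have hk : k ≤ ∑ i, rk Ω (fun s j => phi L A A' s (t i j)) (B : Set _) := by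
    have h1 : ∑ i : Fin k, 1 ≤ ∑ i, rk Ω (fun s j => phi L A A' s (t i j)) (B : Set _) :=
      Finset.sum_le_sum fun i _ => hrk1 i
    simpa using h1
  have h2l : B.toLeft.card < 2 ∨ B.toLeft.card < B.toRight.card := by
    by_contra hcon
    push Not at hcon
    have h1 : 2 * B.toLeft.card + k ≤ 1 + ∑ i, rk (AlgebraicClosure K)
      (fun (τ : K →ₐ[L] AlgebraicClosure K) (j : Fin (a i)) => τ (t i j))
      (B.toLeft : Set (K →ₐ[L] AlgebraicClosure K)) := link t ht hM B.toLeft hcon.1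
    have h2 := Finset.sum_le_sum fun i (_ : i ∈ (Finset.univ : Finset (Fin k))) => hleft i
    omega
  have h2r : B.toRight.card < 2 ∨ B.toRight.card < B.toLeft.card := by
    by_contra hcon
    push Not at hcon
    have h1 : 2 * B.toRight.card + k ≤ 1 + ∑ i, rk (AlgebraicClosure K)
      (fun (τ : K →ₐ[L] AlgebraicClosure K) (j : Fin (a i)) => τ (t i j))
      (B.toRight : Set (K →ₐ[L] AlgebraicClosure K)) := link t ht hM B.toRight hcon.1
    have h2 := Finset.sum_le_sum fun i (_ : i ∈ (Finset.univ : Finset (Fin k))) => hright i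
    omega
  have hl1 : B.toLeft.card = 1 := by omega
  have hr1 : B.toRight.card = 1 := by omega
  obtain ⟨σ, hσ⟩ := Finset.card_eq_one.1 hl1
  obtain ⟨σ', hσ'⟩ := Finset.card_eq_one.1 hr1
  have hs : Sum.inl σ ∈ (B : Set ((K →ₐ[L] AlgebraicClosure K) ⊕ (K →ₐ[L] AlgebraicClosure K))) := by
    rw [Finset.mem_coe, ← Finset.mem_toLeft, hσ]
    exact Finset.mem_singleton_self _
  have hs' : Sum.inr σ' ∈ (B : Set ((K →ₐ[L] AlgebraicClosure K) ⊕ (K →ₐ[L] AlgebraicClosure K))) := by
    rw [Finset.mem_coe, ← Finset.mem_toRight, hσ']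
    exact Finset.mem_singleton_self _
  have hrk : rk Ω (fun s j => phi L A A' s (t i j)) (B : Set _) ≤ 1 := by
    by_contra hcon
    push Not at hcon
    have h1 : ∑ i : Fin k, 1 < ∑ i, rk Ω (fun s j => phi L A A' s (t i j)) (B : Set _) :=
      Finset.sum_lt_sum (fun i _ => hrk1 i) ⟨i, Finset.mem_univ i, hcon⟩
    have h2 : ∑ i : Fin k, 1 = k := by simp
    omega
  obtain ⟨lam, hlam⟩ := prop_of_rk (x := fun s j => phi L A A' s (t i j)) hs hs' (hx i _) hrk
  have h3 : ∀ j, A (σ (t i j)) = lam * A' (σ' (t i j)) := fun j => congrFun hlam j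
  have h4 : A' (σ' (t i j / t i j')) = A (σ (t i j / t i j')) := by
    rw [map_div₀, map_div₀, map_div₀, map_div₀, h3, h3]
    have h5 : A' (σ' (t i j')) ≠ 0 := by
      rw [Ne, map_eq_zero, map_eq_zero]
      exact hj'
    have h6 : A (σ (t i j')) ≠ 0 := by
      rw [Ne, map_eq_zero, map_eq_zero]
      exact hj'
    rw [h3] at h6
    have h7 : lam ≠ 0 := left_ne_zero_of_mul h6
    field_simp
  exact alg_iff N σ (hab _ _ h4)

end

/-- **The Kodaira dimension of images.** -/
theorem gen_kap {K : Type} [Field K] [Algebra ℂ K] [Algebra.EssFiniteType ℂ K] {k n : ℕ}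
    (hn : Algebra.trdeg ℂ K = n) {a : Fin k → ℕ} {t : ∀ i, Fin (a i) → K}
    (ht : ∀ i, ∃ j, t i j ≠ 0) {W : (Fin n → Derivation ℂ K K) → K} (hW : IsPluri 1 W)
    (hW0 : ∃ G, W G ≠ 0)
    (hreg : ∀ e : ∀ i, Fin (a i), ∀ P : Place ℂ K, Divisorial n P →
      RegAt P (fun G => (∏ i, t i (e i)) * W G))
    (L : IntermediateField ℂ K) [FiniteDimensional L K]
    (hM : ∀ M : IntermediateField L K, M ≠ ⊤ → 2 * Module.finrank M K + k ≤
      1 + ∑ i, Module.finrank M (Submodule.span M (Set.range (t i)))) {h : ℕ}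
    (hKod : KodGe ℂ K n (fun _ => False) h) : KodGe ℂ L n (fun _ => False) h := by
  classical
  have hK0 : CharZero K := charZero_of_injective_algebraMap (algebraMap ℂ K).injective
  have hL0 : CharZero L := charZero_of_injective_algebraMap (algebraMap ℂ L).injective
  have hessL : Algebra.EssFiniteType ℂ L := Pool.Agent.TH466.QG.ess_below (K := K)
  have hL : Algebra.trdeg ℂ L = n := Pool.Agent.Y184.NT.trdeg_below (K := K) hn
  obtain ⟨z, E, hz, hE⟩ := Pool.Agent.Y172.exists_crd (k := ℂ) (K := L) hL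
  choose E' hE' using fun i => Pool.Agent.Y172.exists_lift (k := ℂ) (K := L) (L := K) hL (E i)
  have hzK : IsTranscendenceBasis ℂ (fun j => algebraMap L K (z j)) := hz.algebraMap_comp
  have hE'd := Pool.Agent.Y172.lift_dual hE hE'
  obtain ⟨J, hJ⟩ : ∃ J : K, J = W E' := ⟨_, rfl⟩
  have hJ0 : J ≠ 0 := by
    obtain ⟨G, hG⟩ := hW0
    have h1 := Pool.Agent.Y172.pluri_coord hzK hE'd hW G
    rw [h1] at hG
    rw [hJ]
    exact right_ne_zero_of_mul hG
  have hpl : ∀ e : ∀ i, Fin (a i), IsPluri 1 (fun G => (∏ i, t i (e i)) * W G) := by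
    intro e A G
    change (∏ i, t i (e i)) * W _ = _ * ((∏ i, t i (e i)) * W G)
    rw [hW A G]
    ring
  have hsA := Pool.Agent.Helper11K9.KN.span_top (L := L) ht Finset.univ (fun M hM' => by
    have h1 := hM M hM'
    rw [Finset.card_univ, Fintype.card_fin]
    omega)
  -- a nonzero trace
  obtain ⟨e1, hT0⟩ : ∃ e : ∀ i, Fin (a i), Algebra.trace L K (J * ∏ i, t i (e i)) ≠ 0 := by
    by_contra hcon
    push Not at hcon
    obtain ⟨x, hx⟩ := Pool.Agent.Helper11K9.KN.exists_trace (L := L) hJ0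
    apply hx
    have h1 : Submodule.span L {x : K | ∃ e : ∀ i, Fin (a i), x = ∏ i ∈ Finset.univ, t i (e i)} ≤
        LinearMap.ker ((Algebra.trace L K).comp (LinearMap.mulLeft L J)) := by
      rw [Submodule.span_le]
      rintro _ ⟨e, rfl⟩
      exact hcon e
    exact LinearMap.mem_ker.1 (h1 (hsA (by trivial : x ∈ (⊤ : Submodule L K))))
  obtain ⟨N, hN⟩ : ∃ N : IntermediateField ℂ L, N = IntermediateField.adjoin ℂ
    {x : L | ∃ e : ∀ i, Fin (a i), x = Algebra.trace L K (J * ∏ i, t i (e i)) /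
      Algebra.trace L K (J * ∏ i, t i (e1 i))} := ⟨_, rfl⟩
  have hNm : ∀ e : ∀ i, Fin (a i), Algebra.trace L K (J * ∏ i, t i (e i)) /
      Algebra.trace L K (J * ∏ i, t i (e1 i)) ∈ N := by
    intro e
    rw [hN]
    exact IntermediateField.subset_adjoin _ _ ⟨e, rfl⟩
  -- the ratios are algebraic
  have halg : ∀ i, ∀ j j', t i j' ≠ 0 → IsAlgebraic N (t i j / t i j') := fun i j j' hj' =>
    two_kap N hJ0 ht hM hT0 hNm i hj'
  -- the field of the ratios of pluricanonical forms
  obtain ⟨T, hT⟩ : ∃ T : (∀ i, Fin (a i)) → L,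
    T = fun e => Algebra.trace L K (J * ∏ i, t i (e i)) := ⟨_, rfl⟩
  have hTreg : ∀ e, Rg z 1 (T e) := by
    intro e P hP
    have h1 := Pool.Agent.R882.LT.trForm_regAt hL hz hE hE' _ (hpl e) P hP fun Q r hQ =>
        hreg e Q (Pool.Agent.Y172.divisorial_up hQ hP)
    have h2 : pf z 1 (T e) = Pool.Agent.Y184.NT.trForm z
        (Algebra.trace L K ((∏ i, t i (e i)) * W E')) := by
      funext G
      rw [pf, Pool.Agent.Y184.NT.trForm, pow_one, hT, ← hJ, mul_comm (∏ i, t i (e i)) J]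
    rw [h2]
    exact h1
  have hT0' : T e1 ≠ 0 := by
    rw [hT]
    exact hT0
  have hNN : N ≤ Nf z := by
    rw [hN, IntermediateField.adjoin_le_iff]
    rintro _ ⟨e, rfl⟩
    refine mem_Nf.2 ⟨1, T e, T e1, hTreg e, hTreg e1, hT0', ?_⟩
    rw [hT]
  have hup : ∀ u : K, IsAlgebraic N u → IsAlgebraic (Nf z) u := by
    intro u hu
    let _ : Algebra N (Nf z) := (IntermediateField.inclusion hNN).toRingHom.toAlgebra
    have : IsScalarTower N (Nf z) K := IsScalarTower.of_algebraMap_eq fun _ => rfl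
    exact hu.extendScalars (IntermediateField.inclusion hNN).toRingHom.injective
  -- a primitive element
  choose j0 hj0 using ht
  obtain ⟨S, hS⟩ : ∃ S : Submodule ℂ K, S = Submodule.span ℂ
    {x : K | ∃ i j j', t i j' ≠ 0 ∧ x = t i j / t i j'} := ⟨_, rfl⟩
  obtain ⟨b, hbS, hb⟩ := exists_prim' (L := L) S (by
    by_contra hcon
    have h0 := hM _ hcon
    obtain ⟨M, hM'⟩ : ∃ M, M = IntermediateField.adjoin L (S : Set K) := ⟨_, rfl⟩
    rw [← hM'] at h0
    have h2 : ∀ i, Module.finrank M (Submodule.span M (Set.range (t i))) ≤ 1 := by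
      intro i
      have h1 : Submodule.span M (Set.range (t i)) ≤ Submodule.span M {t i (j0 i)} := by
        rw [Submodule.span_le]
        rintro _ ⟨j, rfl⟩
        refine Submodule.mem_span_singleton.2 ⟨⟨t i j / t i (j0 i), ?_⟩, ?_⟩
        · rw [hM']
          refine IntermediateField.subset_adjoin _ _ ?_
          rw [hS]
          exact Submodule.subset_span ⟨i, j, j0 i, hj0 i, rfl⟩
        · change t i j / t i (j0 i) * t i (j0 i) = t i j
          exact div_mul_cancel₀ _ (hj0 i)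
      have h2 := Submodule.finrank_mono h1
      rwa [finrank_span_singleton (hj0 i)] at h2
    have h3 := Finset.sum_le_sum fun i (_ : i ∈ (Finset.univ : Finset (Fin k))) => h2 i
    rw [Finset.sum_const, Finset.card_univ, Fintype.card_fin, smul_eq_mul, mul_one] at h3
    have h4 : 0 < Module.finrank M K := Module.finrank_pos
    omega)
  have hbN : IsAlgebraic N b := by
    rw [hS] at hbS
    clear hb
    induction hbS using Submodule.span_induction with
    | mem x hx =>
      obtain ⟨i, j, j', hj', rfl⟩ := hx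
      exact halg i j j' hj'
    | zero => exact isAlgebraic_zero
    | add x y _ _ hx hy => exact hx.add hy
    | smul c x _ hx =>
      rw [Algebra.smul_def]
      have h1 : IsAlgebraic N (algebraMap ℂ K c) :=
        isAlgebraic_algebraMap (A := K) (algebraMap ℂ N c)
      exact h1.mul hx
  exact kod_up hL hz hE hE' hb (hup _ hbN) hT0' (hTreg e1) hKod

end Pool.Agent.Helper11K9.KM
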